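import Pool.Agent.U393.IT.Var

/-!
# Viehweg's inequality for the fibrations of the images of `X × Y`

Let `X` be a smooth projective variety of dimension `d` over `ℂ`, with morphisms to projective spaces
`ℙ^{N 0}, ..., ℙ^{N (k - 1)}` which together map `X` birationally onto its image; `H i` is the pull-back of
a hyperplane. Let `Y` be any smooth projective variety, of dimension `n`. Let `V = X × Y ⇢ W` be a
dominant rational map of finite degree to any variety `W`, such that the map `V ⇢ W × X` is
injective on an open subset. The map `V ⇢ W` need not be compatible with the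
projections, and it need not be a Galois cover. Let `W_i` be the image of `V` in
`W × ℙ^{N 0} × ... × ℙ^{N (i - 1)}` and let `δ i` be the degree of `W_{i + 1}` over `W_i`. Suppose that
`K_X - 2 ∑ (δ i - 1) H i` is big. For instance `X ⊆ ℙ^{d + 1}` is a smooth hypersurface of
degree more than `d + 2 δ 0`.

Let `W ⇢ Z` be any fibration (any dominant rational map), with generic fibre `F`. Let `Z'` be the image of
`V` in `X × Z`, of dimension `d + e'`, and let `c = dim Z - e'` be its codimension in `X × Z`. Over the
function field `ℂ(X)` the variety `Y` has a fibration `g : Y_{ℂ(X)} ⇢ Z'_{ℂ(X)}`, where `Z'_{ℂ(X)}` is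
the generic fibre of `Z' → X`, of dimension `e'`. Let `G` be the generic fibre of `g`.

**Theorem.** Suppose that `κ(Y_{ℂ(X)}) ≥ κ(G) + v`, or that `e' = v = 0`. If `κ(F) ≥ 0` then

  `κ(W) ≥ max (κ(F), d - c) + c + v`.

If `v = e'` then `κ(W) = κ(F) + dim Z` (in the sense that `κ(W) ≥ dim Z + q` if and only if
`κ(F) ≥ q`, for all `q ≥ 0`), so that Viehweg's inequality
`κ(W) ≥ κ(F) + max (κ(Z), Var (W/Z))` is true for the fibration `W ⇢ Z`. In particular it is true

* without any hypothesis if `V ⇢ Z` factors through `X`; the Kodaira dimension of `Z` is arbitrary, for instance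
  `Z` can be rational;
* by Viehweg's theorem for the fibration `g`, if `Z'_{ℂ(X)}` is of general type;
* by Kollár's and Kawamata's theorems for `g`, if `κ(Z'_{ℂ(X)}) ≥ 0`, the variation of `g` is maximal, and
  `G` is of general type or has a good minimal model (for instance `n - e' ≤ 3`).

(The last two items are not part of the Lean proof.) For instance, `W` can be the quotient of `X × Y` by a
finite group acting on both factors, faithfully on `X`, and `Z` any variety dominated by the quotient
of `X`. Nothing is assumed about `κ(Y)`, and good minimal models of `F` are not known to exist.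

Proof. Pluricanonical forms of `F` (over the function field `E` of `Z`) are pulled back to `V` (over
`E`) and restricted to `G`; as `dim Z' - dim Z = d - c`, it follows that
`κ(G) ≥ κ(F) - (d - c)`, `κ(G) ≥ 0`. So `κ(Y_{ℂ(X)}) ≥ max (κ(F) - (d - c), 0) + v`.
The coefficients of the pluricanonical forms of `Y_{ℂ(X)}` with respect to a
basis of `ℂ(X)` over `ℂ` are pluricanonical forms on `Y`, so that `κ(Y)` is at least this number, too.
Finally `κ(W) ≥ d + κ(Y)`; this is proved with norms of forms from `V` to `W`, see
`Pool.Agent.U192.PE.kod_prod`. The upper bound is the easy addition formula.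
-/

set_option autoImplicit false
set_option linter.overlappingInstances false

open FF Module
open Pool.Agent.W602.GT (IsPluri Divisorial DerReg KodGe)

namespace Pool.Agent.Results.MP_5c318e_ag.FibrationsOfImages

/-- The Kodaira dimension of the smooth projective varieties of dimension `n` over `k` with the
function field `K` is at least `h`: there are pluricanonical forms of some weight, regular at all
prime divisors, with `h` algebraically independent ratios. -/
def KappaGe (k K : Type) [Field k] [Field K] [Algebra k K] (n h : ℕ) : Prop :=
  KodGe k K n (fun _ => False) h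

/-- The Kodaira dimension of the variety over `k` with the function field `K` is at least `v` plus the
Kodaira dimension of the generic fibre of its fibration over the variety with the function field
`M ⊆ K`, if the latter is nonnegative. -/
def GainsAtLeast (k K : Type) [Field k] [Field K] [Algebra k K] (M : IntermediateField k K)
    (v : ℕ) : Prop :=
  ∀ e f q : ℕ, Algebra.trdeg k M = e → Algebra.trdeg M K = f →
    KappaGe M K f q → KappaGe k K (e + f) (q + v)

/-- The order of the poles along `P` of the functions in the finite set `Y`: the multiplicity along `P`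
of the pull-back of a hyperplane under the rational map with the coordinates `1` and `Y`. -/
noncomputable def poleOrder {U : Type} [Field U] [Algebra ℂ U] (Y : Finset U) (P : Place ℂ U) : ℕ :=
  Y.sup fun z => (-P.ord z).toNat

/-- The functions on `X` as functions on `V = X × Y`. -/
def onV {L : Type} [Field L] [Algebra ℂ L] {U : IntermediateField ℂ L} (Y : Finset U) : Finset L :=
  Y.map (Function.Embedding.subtype fun z => z ∈ U)

/-- The function field of the image `W_j` of `V` in the product of `W` and the first `j` projective
spaces. `K` and `L` are the function fields of `W` and `V`, and `X i` is the set of the affine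
coordinates of the `i`-th rational map. -/
def Img {L : Type} [Field L] [Algebra ℂ L] {U : IntermediateField ℂ L} (K : Type) [Field K]
    [Algebra K L] {k : ℕ} (X : Fin k → Finset U) (j : ℕ) : IntermediateField K L :=
  IntermediateField.adjoin K {z | ∃ i : Fin k, i.val < j ∧ z ∈ onV (X i)}

/-- The degree `δ i` of `W_{i + 1}` over `W_i`. -/
noncomputable def deg {L : Type} [Field L] [Algebra ℂ L] {U : IntermediateField ℂ L} (K : Type)
    [Field K] [Algebra K L] {k : ℕ} (X : Fin k → Finset U) (i : Fin k) : ℕ :=
  finrank (Img K X i) (IntermediateField.adjoin (Img K X i) (onV (X i) : Set L))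

/-- `θ` is a section of `m K_X - H`, where `U` is the function field of the variety `X`, of dimension
`d`, and `H` has the multiplicity `b P` at `P`: the order of the `m`-canonical form `θ` along each prime
divisor `P` over `X` is at least `b P`. -/
def IsSection {U : Type} [Field U] [Algebra ℂ U] (d m : ℕ) (b : Place ℂ U → ℤ)
    (θ : (Fin d → Derivation ℂ U U) → U) : Prop :=
  IsPluri m θ ∧ ∀ P : Place ℂ U, Divisorial d P → ∀ G : Fin d → Derivation ℂ U U,
    (∀ i, DerReg P (G i)) → θ G ≠ 0 → b P ≤ P.ord (θ G)

/-- The function field of the image `Z'` of `V` in `X × Z`, as an extension of the function field `U` of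
`X`. Here `K` and `L` are the function fields of `W` and `V`, and `E ⊆ K` is the one of `Z`. -/
noncomputable def Onto {L : Type} [Field L] [Algebra ℂ L] (U : IntermediateField ℂ L) {K : Type} [Field K]
    [Algebra ℂ K] [Algebra K L] (E : IntermediateField ℂ K) : IntermediateField U L :=
  IntermediateField.adjoin U (algebraMap K L '' E)

/-- **Viehweg's inequality for the images of `X × Y`.** Let `L` be the function field of the product
`V` of the varieties `X` and `Y` with the function fields `U` and `T`, of dimensions `d` and `n`: it
is generated by `U` and `T` and has the transcendence degree `d + n`. Let `U` be generated by the finitely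
many coordinates in the sets `X i`. Let `K ⊆ L` be the function field of a variety `W`, the extension
being finite, such that `L` is generated by `K` and `U` (i.e. the map `V ⇢ W × X` is generically
injective). Suppose that there are sections `θ 0, ..., θ d` of `m (K_X - 2 ∑ (δ i - 1) H i)`, `m ≥ 1`,
whose ratios are algebraically independent.

Let `W ⇢ Z` be a dominant rational map, given by the subfield `E` of `K`, with generic fibre `F`, the
variety over `E` with the function field `K`. Let `e'` be the dimension over `X` of the image `Z'` of `V` in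
`X × Z`. Suppose that for the fibration of `V` over `Z'` as varieties over the field `U` the
Kodaira dimension of `V` is at least `v` plus the one of the generic fibre, or that `e' = v = 0`. If
`κ(F) ≥ q ≥ 0` then `κ(W) ≥ max q (d - c) + (c + v)`, where `c = dim Z - e'` and `0 ≤ c ≤ d`. If `v = e'`
then `κ(F) ≥ q` if and only if `κ(W) ≥ dim Z + q`. -/
theorem result {L : Type} [Field L] [Algebra ℂ L] [Algebra.EssFiniteType ℂ L]
    (U T : IntermediateField ℂ L) {d n m k : ℕ} (hUT : U ⊔ T = ⊤)
    (hU : Algebra.trdeg ℂ U = d) (hT : Algebra.trdeg ℂ T = n)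
    (hL : Algebra.trdeg ℂ L = (d + n : ℕ))
    (X : Fin k → Finset U) (hX : IntermediateField.adjoin ℂ (⋃ i, (X i : Set U)) = ⊤)
    (K : Type) [Field K] [Algebra ℂ K] [Algebra K L] [IsScalarTower ℂ K L] [FiniteDimensional K L]
    (hinj : IntermediateField.adjoin K (U : Set L) = ⊤)
    (hm : 1 ≤ m) (θ : Fin (d + 1) → (Fin d → Derivation ℂ U U) → U)
    (hθ : ∀ j, IsSection d m
      (fun P => ∑ i, 2 * m * ((deg K X i : ℤ) - 1) * poleOrder (X i) P) (θ j))
    (D : Fin d → Derivation ℂ U U) (hD : θ 0 D ≠ 0)
    (hind : AlgebraicIndependent ℂ fun j : Fin d => θ j.succ D / θ 0 D)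
    (E : IntermediateField ℂ K) {e f e' v : ℕ} (he : Algebra.trdeg ℂ E = e)
    (hf : Algebra.trdeg E K = f) (he' : Algebra.trdeg U (Onto U E) = e')
    (hv : GainsAtLeast U L (Onto U E) v ∨ (e' = 0 ∧ v = 0)) :
    (∀ q : ℕ, KappaGe E K f q → ∃ c : ℕ, e = e' + c ∧ c ≤ d ∧
      KappaGe ℂ K (e + f) (max q (d - c) + (c + v))) ∧
    (v = e' → ∀ q : ℕ, KappaGe E K f q ↔ KappaGe ℂ K (e + f) (e + q)) := by
  have hUe : Algebra.EssFiniteType ℂ U := Pool.Agent.N999.SX.ess_any U
  have hTe : Algebra.EssFiniteType ℂ T := Pool.Agent.N999.SX.ess_any T
  have hKe : Algebra.EssFiniteType ℂ K := Pool.Agent.TH466.QG.ess_below (K := L)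
  have hdn : e + f = d + n := by
    have h1 := trdeg_add_eq ℂ E (A := K)
    have h2 : Algebra.trdeg ℂ K = (d + n : ℕ) := Pool.Agent.Y184.NT.trdeg_below (K := L) hL
    rw [he, hf, h2] at h1
    exact_mod_cast h1
  have hkey : ∀ q : ℕ, KappaGe E K f q → ∃ c : ℕ, e = e' + c ∧ c ≤ d ∧
      KappaGe ℂ K (e + f) (max q (d - c) + (c + v)) := by
    intro q hq
    rw [hdn]
    have hE : Onto U E = IntermediateField.adjoin U (Set.range (algebraMap E L)) := by
      unfold Onto
      congr 1
      ext z
      constructor
      · rintro ⟨x, hx, rfl⟩
        exact ⟨⟨x, hx⟩, rfl⟩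
      · rintro ⟨x, rfl⟩
        exact ⟨x, x.2, rfl⟩
    refine U393.IT.main_var (U := U) (T := T) hm hUT hU hT hL hinj X hX (α := θ)
      (fun j => ⟨(hθ j).1, fun P hP G hG => ?_⟩) hD hind E (Onto U E) hE he hf he' ?_ hq
    · by_cases h0 : θ j G = 0
      · exact Or.inl h0
      · refine Or.inr ⟨1, Finset.mem_singleton_self _, one_ne_zero, ?_⟩
        rw [P.ord_one, add_zero]
        exact (hθ j).2 P hP G hG h0
    · rcases hv with h | h
      · refine Or.inl fun f0 q' hef hf0 hq' => ?_
        have h1 := h e' f0 q' he' hf0 hq'
        rw [hef] at h1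
        exact h1
      · exact Or.inr h
  refine ⟨hkey, fun hve q => ⟨fun hq => ?_, fun h => U393.IT.easy_add E he hf h⟩⟩
  obtain ⟨c, hc, -, h⟩ := hkey q hq
  refine Pool.Agent.R882.UA.kod_mono h ?_
  have h1 := le_max_left q (d - c)
  omega

end Pool.Agent.Results.MP_5c318e_ag.FibrationsOfImages
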