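import Pool.Agent.U192.PZ.Fac

/-!
# Fibrations of varieties with an isotrivial correspondence

Let `X` be a projective variety over `ℂ` of dimension `d`, `W` any variety, and let `V₁ ⊂ W × X` be a
correspondence of finite degree over `W`, dominant over `X`, which is birationally isotrivial over `X`:
for some dominant rational map `X' ⇢ X` with `dim X' = dim X` the fibre product `V₁ ×_X X'` (or one of
its components) is birational to a product `V = X' × Y`. In other words, there is a
dominant rational map `f : V = X' × Y ⇢ W` of finite degree such that `V ⇢ W × X'` is injective on an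
open subset, and `V₁` is the image of `V` in `W × X`. Let `Y = Y₁ × Y₂`, where `Y₁` is of general type
(of any dimension, for instance a point) and `Y₂` is any variety.

Let `T` be a finite set of rational functions on `X` such that `1` and the functions in `T` generate the
function field of `V₁` as a vector space over `ℂ(W)` (they separate the points of `X` which correspond
to a general point of `W`), and let `H` be the divisor of the poles of the functions in `T`.

**Theorem.** Suppose that `K_X - 2 H` is big. Then `κ(W) ≥ d + dim Y₁ + b` if and only if `κ(Y₂) ≥ b`, for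
all `b ≥ 0`; so `κ(W) = d + dim Y₁ + κ(Y₂)` if `κ(Y₂) ≥ 0`.
Let `W ⇢ Z` be any dominant rational map, with generic fibre `F`, such that `V ⇢ W ⇢ Z` factors through
the projection `V ⇢ X' × Y₁`. Then `κ(F) ≥ q` if and only if `κ(W) ≥ dim Z + q`, for all `q ≥ 0`; so

`κ(W) = κ(F) + dim Z ≥ κ(F) + max (κ(Z), Var(W/Z))`

if `κ(F) ≥ 0`, which is Viehweg's inequality.

There is no condition on `Z`, on the fibres, or on the variation of the fibration; `Z` can be
rational, and `κ(Y₂)` can be any number. The map `V ⇢ Z` factors through `X' × Y₁` for all `Z` if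
`Y₂` is a point (then `W` is of general type). If `Y₂` is covered by varieties of a
class `𝒞`, for instance if it is an abelian variety, then it factors for all `Z` which contain no
nonconstant images of the varieties in `𝒞` through the general point: the fibres `Y₂` are contracted in
`Z`. (These remarks, and the comparison with the variation, are not part of the Lean proof.)

`FibrationsOfImages` (same problem, same team) is about `X' = X`, separating sets of monomials in the
coordinates of maps to projective spaces, and fibrations for which `V ⇢ Z` factors through `X` or for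
which the restriction to `X × Y ⇢ X × Z` satisfies the inequality over `ℂ(X)`. New are the base change
`X' ⇢ X`, the arbitrary set `T` and the factor `Y₁`, and the value of `κ(W)`.
`IsotrivialCorrespondences` (same problem, same author) has all fibrations, but only for
`κ(W) ≥ dim W - 1`; here `dim W - κ(W)` is arbitrary.

Proof. For pluricanonical forms `θ` on `X` (in `m (K_X - 2 H)`), `β` on `Y₁` and `γ` on `Y₂` the norm
of `θ ⊠ β ⊠ γ` from `ℂ(V)` to `ℂ(W)`, multiplied by a power of the discriminant of a basis in `{1} ∪ T`,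
is a regular pluricanonical form on `W`; this gives `κ(W) ≥ d + dim Y₁ + κ(Y₂)`. For the upper bound of
`κ(F)` the forms on `F` are pulled back to the generic fibre of `V ⇢ Z` and restricted to the generic
fibre of `V ⇢ X' × Y₁`, where `dim X' + dim Y₁ - dim Z` algebraically independent ratios can be
lost, and then to `Y₂`.
-/

set_option autoImplicit false
set_option linter.overlappingInstances false
set_option maxHeartbeats 4000000

open FF Module Pool.Agent.W602.GT

namespace Pool.Agent.Results.MP_5c318e_ag.FibrationsThroughFactors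

/-- The order of the poles along `v` of the functions in the finite set `T`: the multiplicity at `v`
of `H`, the smallest effective divisor with `H + (t) ≥ 0` for all `t ∈ T`, `t ≠ 0`. -/
noncomputable def poleOrder {E : Type} [Field E] [Algebra ℂ E] (T : Finset E) (v : Place ℂ E) : ℕ :=
  T.sup fun z => (-v.ord z).toNat

/-- `θ` is a section of `m (K_X - 2 H)`, where `E` is the function field of `X`, of dimension `d`, and
`H` is the divisor of the poles of the functions in `T`: an `m`-canonical form of order at least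
`2 m H_v` along all prime divisors `v` over `X`. -/
def IsSection {E : Type} [Field E] [Algebra ℂ E] (d m : ℕ) (T : Finset E)
    (θ : (Fin d → Derivation ℂ E E) → E) : Prop :=
  IsPluri m θ ∧ ∀ v : Place ℂ E, Divisorial d v → ∀ G : Fin d → Derivation ℂ E E,
    (∀ i, DerReg v (G i)) → θ G = 0 ∨ 2 * (m : ℤ) * poleOrder T v ≤ v.ord (θ G)

/-- `K_X - 2 H` is big, `dim X = d`: for some `m ≥ 1` there are `d + 1` sections of `m (K_X - 2 H)` with
algebraically independent ratios. -/
def IsBig {E : Type} [Field E] [Algebra ℂ E] (d : ℕ) (T : Finset E) : Prop :=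
  ∃ m : ℕ, 1 ≤ m ∧ ∃ θ : Fin (d + 1) → (Fin d → Derivation ℂ E E) → E,
    (∀ j, IsSection d m T (θ j)) ∧ ∃ G : Fin d → Derivation ℂ E E, θ 0 G ≠ 0 ∧
      AlgebraicIndependent ℂ fun j : Fin d => θ j.succ G / θ 0 G

/-- `1` and the functions in `T` generate the field `K(E)` as a vector space over `K`. Here `L` is the
function field of `V`, `E` the one of `X`, `K` the one of `W`, and so `K(E)` the one of `V₁`. -/
def Separates {L : Type} [Field L] [Algebra ℂ L] (K : Type) [Field K] [Algebra K L]
    (E : IntermediateField ℂ L) (T : Finset E) : Prop :=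
  ∀ z ∈ IntermediateField.adjoin K (E : Set L),
    z ∈ Submodule.span K (insert 1 ((fun t : E => (t : L)) '' (T : Set E)))

/-- The Kodaira dimension of the variety over `k`, of dimension `n`, with the function field `K` is at
least `h`: for some `m ≥ 1` there are `h + 1` regular `m`-canonical forms (regular at all prime
divisors) with algebraically independent ratios. For `k = ℂ(Z)` this is the generic fibre of a
fibration over `Z`. -/
def KappaGe (k K : Type) [Field k] [Field K] [Algebra k K] (n h : ℕ) : Prop :=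
  ∃ m : ℕ, 1 ≤ m ∧ ∃ ω : Fin (h + 1) → (Fin n → Derivation k K K) → K,
    (∀ j, IsPluri m (ω j) ∧ ∀ P : Place k K, Divisorial n P → ∀ G : Fin n → Derivation k K K,
      (∀ i, DerReg P (G i)) → ω j G = 0 ∨ 0 ≤ P.ord (ω j G)) ∧
    ∃ D : Fin n → Derivation k K K, ω 0 D ≠ 0 ∧
      AlgebraicIndependent k fun j : Fin h => ω j.succ D / ω 0 D

theorem kappa_iff {k K : Type} [Field k] [Field K] [Algebra k K] {n h : ℕ} :
    KappaGe k K n h ↔ Pool.Agent.Y174.PairKod k K n (fun _ => 0) h := by
  constructor
  · rintro ⟨m, hm, ω, hω, D, hD, hind⟩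
    refine ⟨m, hm, ω, fun l => ⟨(hω l).1, fun P hP G hG => ?_⟩, D, fun l => ?_, hind⟩
    · rcases (hω l).2 P hP G hG with h | h
      · exact Or.inl h
      · refine Or.inr ⟨1, Finset.mem_singleton_self _, one_ne_zero, ?_⟩
        rw [P.ord_one, Int.cast_zero, mul_zero, mul_zero, sub_zero]
        exact_mod_cast h
    · refine Fin.cases hD (fun l => ?_) l
      intro h0
      apply hind.ne_zero l
      rw [h0, zero_div]
  · rintro ⟨m, hm, ω, hω, D, hD, hind⟩
    refine ⟨m, hm, ω, fun l => ⟨(hω l).1, fun P hP G hG => ?_⟩, D, hD 0, hind⟩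
    rcases (hω l).2 P hP G hG with h0 | ⟨s, hs, hs0, hle⟩
    · exact Or.inl h0
    · right
      rw [Nat.cast_zero, zero_mul, mul_zero, sub_zero] at hle
      exact_mod_cast hle

theorem trdeg_sup' {L : Type} [Field L] [Algebra ℂ L] (A B : IntermediateField ℂ L) :
    Algebra.trdeg ℂ (A ⊔ B : IntermediateField ℂ L) ≤ Algebra.trdeg ℂ A + Algebra.trdeg ℂ B := by
  have h := Pool.Agent.W904.PG.trdeg_sup A.val B.val
  rwa [IntermediateField.fieldRange_val, IntermediateField.fieldRange_val] at h

/-- **Fibrations through a factor.** Let `L` be the function field of the product `V`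
of the varieties `X'` and `Y` with the function fields `U` and `F`, of dimensions `d` and `s + r`: it is
generated by `U` and `F` and has the transcendence degree `d + (s + r)`. Let `Y` be the product of `Y₁`
and `Y₂` with the function fields `F₁` and `F₂`, of dimensions `s` and `r`, where `Y₁` is of general type.
Let `E ⊆ U`, of transcendence degree `d`, be the function field of `X`, let `K ⊆ L` be the function field
of a variety `W`, the extension being finite, such that `L` is generated by `K` and `U` (i.e. the map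
`V ⇢ W × X'` is generically injective), and let `T ⊆ E` be a finite set which separates the points of
`X` which correspond to a general point of `W`. Let `K_X - 2 H` be big, where `H` is the divisor of the
poles of `T`. Then `κ(W) ≥ d + s + b` if and only if `κ(Y₂) ≥ b`, for all `b ≥ 0`. Let `Z` be a variety
of dimension `p` which is dominated by `W`, such that the functions on `Z` are, as functions on `V`,
functions on `X' × Y₁`. Then the generic fibre of `W ⇢ Z` has Kodaira dimension at least `q` if and only
if `κ(W) ≥ p + q`, for all `q ≥ 0`. -/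
theorem result {L : Type} [Field L] [Algebra ℂ L] [Algebra.EssFiniteType ℂ L]
    (E U F : IntermediateField ℂ L) (hEU : E ≤ U) (hUF : U ⊔ F = ⊤) {d s r : ℕ}
    (hE : Algebra.trdeg ℂ E = d) (hU : Algebra.trdeg ℂ U = d)
    (hF : Algebra.trdeg ℂ F = (s + r : ℕ)) (hL : Algebra.trdeg ℂ L = (d + (s + r) : ℕ))
    (F₁ F₂ : IntermediateField ℂ F) (h12 : F₁ ⊔ F₂ = ⊤) (h1 : Algebra.trdeg ℂ F₁ = s)
    (h2 : Algebra.trdeg ℂ F₂ = r) (hgt : KappaGe ℂ F₁ s s)
    (K : Type) [Field K] [Algebra ℂ K] [Algebra K L] [IsScalarTower ℂ K L] [FiniteDimensional K L]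
    (hinj : IntermediateField.adjoin K (U : Set L) = ⊤) (T : Finset E) (hT : Separates K E T)
    (hpos : IsBig d T) :
    (∀ b : ℕ, KappaGe ℂ K (d + (s + r)) (d + s + b) ↔ KappaGe ℂ F₂ r b) ∧
    ∀ (Z : IntermediateField ℂ K) (p f : ℕ), Algebra.trdeg ℂ Z = p → Algebra.trdeg Z K = f →
      (∀ z ∈ Z, algebraMap K L z ∈ U ⊔ F₁.map F.val) →
      ∀ q : ℕ, KappaGe Z K f q ↔ KappaGe ℂ K (p + f) (p + q) := by
  classical
  have hessE : Algebra.EssFiniteType ℂ E := Pool.Agent.N999.SX.ess_any E
  have hessU : Algebra.EssFiniteType ℂ U := Pool.Agent.N999.SX.ess_any U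
  have hessF : Algebra.EssFiniteType ℂ F := Pool.Agent.N999.SX.ess_any F
  have hessK : Algebra.EssFiniteType ℂ K := Pool.Agent.TH466.QG.ess_below (K := L)
  have hess2 : Algebra.EssFiniteType ℂ F₂ := Pool.Agent.N999.SX.ess_any F₂
  have hess2' : Algebra.EssFiniteType ℂ (F₂.map F.val) := Pool.Agent.N999.SX.ess_any _
  obtain ⟨m, hm, θ, hθ, D, hD, hind⟩ := hpos
  have hset : ∀ z ∈ IntermediateField.adjoin K (E : Set L),
      z ∈ Submodule.span K {z : L | ∃ t : E, (t = 1 ∨ t ∈ T) ∧ (t : L) = z} := by
    intro z hz
    refine Submodule.span_mono ?_ (hT z hz)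
    rintro w (rfl | ⟨t, ht, rfl⟩)
    · exact ⟨1, Or.inl rfl, rfl⟩
    · exact ⟨t, Or.inr ht, rfl⟩
  have hsec : ∀ j, U192.PX.SecT d m T {1} (θ j) := fun j => ⟨(hθ j).1, fun P hP G hG => by
    rcases (hθ j).2 P hP G hG with h | h
    · exact Or.inl h
    · refine Or.inr ⟨1, Finset.mem_singleton_self _, one_ne_zero, ?_⟩
      rw [P.ord_one, add_zero]
      exact h⟩
  have hge : U192.PE.BdGe (K := K) U F (d + (s + r)) (fun _ => 0) (fun _ => 0) :=
    U393.UT.ge_zero U F
  -- the product decomposition of `V`
  have hsup : (U ⊔ F₁.map F.val) ⊔ F₂.map F.val = ⊤ := by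
    rw [eq_top_iff, ← hUF]
    refine sup_le (le_sup_left.trans le_sup_left) ?_
    intro z hz
    have h3 : (⟨z, hz⟩ : F) ∈ F₁ ⊔ F₂ := by
      rw [h12]
      trivial
    have h4 : F₁ ⊔ F₂ ≤ ((U ⊔ F₁.map F.val) ⊔ F₂.map F.val).comap F.val := by
      refine sup_le (fun w hw => ?_) fun w hw => ?_
      · exact (le_sup_left : U ⊔ F₁.map F.val ≤ _) ((le_sup_right : F₁.map F.val ≤ _) ⟨w, hw, rfl⟩)
      · exact (le_sup_right : F₂.map F.val ≤ _) ⟨w, hw, rfl⟩
    exact h4 h3
  have h1' : Algebra.trdeg ℂ (F₁.map F.val) = s := by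
    rw [← h1]
    exact ((F₁.equivMap F.val).trdeg_eq).symm
  have h2' : Algebra.trdeg ℂ (F₂.map F.val) = r := by
    rw [← h2]
    exact ((F₂.equivMap F.val).trdeg_eq).symm
  have hM : Algebra.trdeg ℂ (U ⊔ F₁.map F.val : IntermediateField ℂ L) = (d + s : ℕ) := by
    have h3 := trdeg_sup' U (F₁.map F.val)
    rw [hU, h1'] at h3
    obtain ⟨c, hc⟩ := Cardinal.lt_aleph0.1 (lt_of_le_of_lt h3
      (Cardinal.add_lt_aleph0 Cardinal.natCast_lt_aleph0 Cardinal.natCast_lt_aleph0))
    have h4 := trdeg_sup' (U ⊔ F₁.map F.val) (F₂.map F.val)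
    rw [hsup, (IntermediateField.topEquiv (F := ℂ) (E := L)).trdeg_eq, hL, h2', hc] at h4
    rw [hc] at h3
    have h5 : c ≤ d + s := by exact_mod_cast h3
    have h6 : d + (s + r) ≤ c + r := by exact_mod_cast h4
    rw [hc]
    congr 1
    omega
  have hL' : Algebra.trdeg ℂ L = (d + s + r : ℕ) := by
    rw [hL, Nat.add_assoc]
  have hlow : ∀ b : ℕ, KappaGe ℂ F₂ r b → KappaGe ℂ K (d + (s + r)) (d + s + b) := by
    intro b hb
    have h3 := U192.PZ.kod_prod_gt h12 h1 h2 hF (kappa_iff.1 hgt) (kappa_iff.1 hb)
    have h4 := U192.PX.kod_prod (K := K) (E := E) (U := U) (F := F) hUF hEU hE hU hF hL hinj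
      hset (fun _ => le_rfl) (fun _ _ => zero_le_one) hge hm hsec hD hind h3
    rw [← Nat.add_assoc d s b] at h4
    exact kappa_iff.2 h4
  have hback : ∀ b : ℕ, Pool.Agent.Y174.PairKod ℂ (F₂.map F.val) r (fun _ => 0) b →
      KappaGe ℂ F₂ r b := fun b h =>
    kappa_iff.2 (U192.PZ.pk_equiv (F₂.equivMap F.val).symm h2' h)
  refine ⟨fun b => ⟨fun h => ?_, hlow b⟩, fun Z p f hp hf hZ q => ⟨fun h => ?_, fun h => ?_⟩⟩
  · have h3 := kappa_iff.1 h
    rw [← Nat.add_assoc d s r] at h3
    exact hback b (U192.PZ.fac_abs (K := K) (U ⊔ F₁.map F.val) (F₂.map F.val) hsup hM h2' hL' h3)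
  · obtain ⟨h3, h4⟩ := U192.PZ.fac_rel (K := K) (U ⊔ F₁.map F.val) (F₂.map F.val) hsup hM h2' hL'
      Z hp hf hZ (U393.IT.kd_iff.2 (kappa_iff.1 h))
    have h5 := hlow _ (hback _ h3)
    have h6 := Pool.Agent.R882.UA.kod_mono (h' := p + q) (U393.IT.kd_iff.2 (kappa_iff.1 h5))
      (by omega)
    have hdn : p + f = d + (s + r) := by
      have h7 := trdeg_add_eq ℂ Z (A := K)
      have h8 : Algebra.trdeg ℂ K = (d + (s + r) : ℕ) := Pool.Agent.Y184.NT.trdeg_below (K := L) hL
      rw [hp, hf, h8] at h7
      exact_mod_cast h7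
    rw [hdn]
    exact kappa_iff.2 (U393.IT.kd_iff.1 h6)
  · exact kappa_iff.2 (U393.IT.kd_iff.1 (U393.IT.easy_add Z hp hf
      (U393.IT.kd_iff.2 (kappa_iff.1 h))))

end Pool.Agent.Results.MP_5c318e_ag.FibrationsThroughFactors
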