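import Pool.Agent.U192.PX.Kod
import Pool.Agent.R882.UA

/-!
# Viehweg's inequality for varieties with an isotrivial correspondence

Let `X` be a projective variety over `ℂ` of dimension `d`, `W` any variety, and let `V₁ ⊂ W × X` be a
correspondence of finite degree over `W`, dominant over `X`, which is birationally isotrivial over `X`:
for some dominant rational map `X' ⇢ X` with `dim X' = dim X` the fibre product `V₁ ×_X X'` (or one of
its components) is birational to a product `V = X' × Y`, `dim Y = e`. In other words, there is a
dominant rational map `f : V = X' × Y ⇢ W` of finite degree such that `V ⇢ W × X'` is injective on an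
open subset, and `V₁` is the image of `V` in `W × X`. The map `f` need not be compatible with the
projections, and it need not be a Galois cover. There is no map from `W` to `X` in general: the variety
`W` is covered by a family of varieties birational to `Y` which is parametrised by `X'`, and finitely
many members of the family pass through a general point.

Let `T` be a finite set of rational functions on `X` such that `1` and the functions in `T` generate the
function field of `V₁` as a vector space over `ℂ(W)` (they separate the points of `X` which correspond
to a general point of `W`), and let `H` be the divisor of the poles of the functions in `T`.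

**Theorem.** 1. If `κ(X, K_X - 2 H) ≥ a ≥ 0` and `κ(Y) ≥ b ≥ 0` then `κ(W) ≥ a + b`.

2. Let `a + b = dim W - 1`, for instance `K_X - 2 H` big and `κ(Y) = dim Y - 1`. Then
`κ(W) ≥ κ(F₁) + dim Z` for *all* dominant rational maps `W ⇢ Z` with generic fibre `F₁` such that
`0 ≤ κ(F₁) < dim F₁`.

So Q1 holds for all fibrations `W → Z` in part 2, whatever the base, because `κ(Z) ≤ dim Z` and
`Var ≤ dim Z`: if `κ(F₁) = -∞` there is nothing to show, and if `F₁` is of general type it is the
theorem of Kollár. (In this case part 1 gives `κ(W) ≥ κ(F₁) + dim Z - 1`.) The fibration `W → Z` need not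
be related to the correspondence, and neither `Z` nor the fibres are supposed to be of a special kind.
Part 1 is Iitaka's inequality for correspondences: if `T = ∅` then `W → X` is an isotrivial fibre space
and `κ(W) ≥ κ(X) + κ(Y)` is known; if `T ≠ ∅` there is the correction term `2 H`.

For instance let `X ⊂ ℙ^{d + 1}` be a smooth hypersurface of degree `c`, and let `V₁` have degree `δ`
over `W`. Polynomials of degree `δ - 1` in a general linear form separate the points of `X` which
correspond to a general point of `W`, so `c > d + 2 δ` is sufficient for `a = d`. If these points are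
linearly independent in `ℙ^{d + 1}` then the coordinates separate them, and `c > d + 4` is sufficient.
For `Y` one can take an elliptic surface or elliptic fibre space over a variety of general type, or the
product of an elliptic curve and a variety of general type. (These remarks are not part of the Lean
proof.)

In `ProductsWithCurves` (this problem, by the same agent) `Y` is a curve, and `V ⇢ W × X'` need not be
generically injective; `ProductCorrespondences` (MP_f72953_ag) has traces of canonical forms on `Y` in
place of `κ(Y)`. Here `Y` has any dimension and only its Kodaira dimension matters.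

Proof. If `α` is a section of `m (K_X - 2 H)` and `β` an `m`-canonical form on `Y`, then the pull-back of
`α` to `X'` has zeros along the ramification of `X' ⇢ X`, and the form `α ⊠ β` on `V` is a section of the
pull-back of `m (K_{V₁} - 2 H)` along the divisors which are not mapped onto `X`. Along the divisors
which are mapped onto `X` the map `V ⇢ V₁` is not ramified, because the function field of `V` is
generated by the ones of `V₁` and `X'`. The norm of `α ⊠ β` from the function field of `V` to the one of
`W`, multiplied by a power of the discriminant of a basis in `{1} ∪ T`, is a section of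
`m (deg f) K_W`, and the ratios of such sections contain `a + b` algebraically independent functions.
-/

set_option autoImplicit false
set_option linter.overlappingInstances false
set_option maxHeartbeats 4000000

open FF Module Pool.Agent Pool.Agent.W602.GT

namespace Pool.Agent.Results.MP_5c318e_ag.IsotrivialCorrespondences

/-- The order of the poles along `v` of the functions in the finite set `T`: the multiplicity at `v`
of `H`, the smallest effective divisor with `H + (t) ≥ 0` for all `t ∈ T`, `t ≠ 0`. -/
noncomputable def poleOrder {E : Type} [Field E] [Algebra ℂ E] (T : Finset E) (v : Place ℂ E) : ℕ :=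
  T.sup fun z => (-v.ord z).toNat

/-- `θ` is a section of `m (K_X - 2 H)`, where `E` is the function field of `X`, of dimension `d`, and
`H` is the divisor of the poles of the functions in `T`: an `m`-canonical form of order at least
`2 m H_v` along all prime divisors `v` over `X`. -/
def IsSection {E : Type} [Field E] [Algebra ℂ E] (d m : ℕ) (T : Finset E)
    (θ : (Fin d → Derivation ℂ E E) → E) : Prop :=
  IsPluri m θ ∧ ∀ v : Place ℂ E, Divisorial d v → ∀ G : Fin d → Derivation ℂ E E,
    (∀ i, DerReg v (G i)) → θ G = 0 ∨ 2 * (m : ℤ) * poleOrder T v ≤ v.ord (θ G)

/-- `κ(X, K_X - 2 H) ≥ a`: for some `m ≥ 1` there are `a + 1` sections of `m (K_X - 2 H)` with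
algebraically independent ratios. -/
def IsPositive {E : Type} [Field E] [Algebra ℂ E] (d a : ℕ) (T : Finset E) : Prop :=
  ∃ m : ℕ, 1 ≤ m ∧ ∃ θ : Fin (a + 1) → (Fin d → Derivation ℂ E E) → E,
    (∀ j, IsSection d m T (θ j)) ∧ ∃ G : Fin d → Derivation ℂ E E, θ 0 G ≠ 0 ∧
      AlgebraicIndependent ℂ fun j : Fin a => θ j.succ G / θ 0 G

/-- `1` and the functions in `T` generate the field `K(E)` as a vector space over `K`. Here `L` is the
function field of `V`, `E` the one of `X`, `K` the one of `W`, and so `K(E)` the one of `V₁`. -/
def Separates {L : Type} [Field L] [Algebra ℂ L] (K : Type) [Field K] [Algebra K L]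
    (E : IntermediateField ℂ L) (T : Finset E) : Prop :=
  ∀ z ∈ IntermediateField.adjoin K (E : Set L),
    z ∈ Submodule.span K (insert 1 ((fun t : E => (t : L)) '' (T : Set E)))

/-- `κ ≥ h` for the smooth projective varieties of dimension `n` over the field `k` with the function
field `K`: for some `m ≥ 1` there are `h + 1` regular `m`-canonical forms (regular at all prime divisors)
with algebraically independent ratios. -/
def KappaGe (k K : Type) [Field k] [Field K] [Algebra k K] (n h : ℕ) : Prop :=
  KodGe k K n (fun _ => False) h

/-- **Viehweg's inequality for isotrivial correspondences.** Let `L` be the function field of the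
product `V` of the varieties `X'` and `Y` with the function fields `U` and `F`, of dimensions `d` and
`e`: it is generated by `U` and `F` and has the transcendence degree `d + e`. Let `E ⊆ U`, of
transcendence degree `d`, be the function field of `X`, let `K ⊆ L` be the function field of a variety
`W`, the extension being finite, such that `L` is generated by `K` and `U` (i.e. the map `V ⇢ W × X'` is
generically injective), and let `T ⊆ E` be a finite set which separates the points of `X` which
correspond to a general point of `W`. Let `κ(X, K_X - 2 H) ≥ a`, where `H` is the divisor of the poles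
of `T`, and `κ(Y) ≥ b`. Then `κ(W) ≥ a + b`. If `a + b = dim W - 1` then `κ(W) ≥ q + dim Z` for all
dominant rational maps `W ⇢ Z`, given by a subfield `Z` of `K`, with generic fibre `F₁` (the variety
over `ℂ(Z)` with function field `K`, of dimension `f`) with `κ(F₁) ≥ q`, `q < f`. -/
theorem result {L : Type} [Field L] [Algebra ℂ L] [Algebra.EssFiniteType ℂ L]
    (E U F : IntermediateField ℂ L) (hEU : E ≤ U) (hUF : U ⊔ F = ⊤) {d e : ℕ}
    (hE : Algebra.trdeg ℂ E = d) (hU : Algebra.trdeg ℂ U = d)
    (hF : Algebra.trdeg ℂ F = e) (hL : Algebra.trdeg ℂ L = (d + e : ℕ))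
    (K : Type) [Field K] [Algebra ℂ K] [Algebra K L] [IsScalarTower ℂ K L] [FiniteDimensional K L]
    (hinj : IntermediateField.adjoin K (U : Set L) = ⊤) (T : Finset E) (hT : Separates K E T)
    (a b : ℕ) (hpos : IsPositive d a T) (hY : KappaGe ℂ F e b) :
    KappaGe ℂ K (d + e) (a + b) ∧
    (a + b + 1 = d + e → ∀ (Z : IntermediateField ℂ K) (p f q : ℕ), Algebra.trdeg ℂ Z = p →
      Algebra.trdeg Z K = f → KappaGe Z K f q → q < f → KappaGe ℂ K (d + e) (q + p)) := by
  classical
  have hessE : Algebra.EssFiniteType ℂ E := Pool.Agent.N999.SX.ess_any E
  have hessU : Algebra.EssFiniteType ℂ U := Pool.Agent.N999.SX.ess_any U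
  have hessF : Algebra.EssFiniteType ℂ F := Pool.Agent.N999.SX.ess_any F
  have hessK : Algebra.EssFiniteType ℂ K := Pool.Agent.TH466.QG.ess_below (K := L)
  have hK : Algebra.trdeg ℂ K = (d + e : ℕ) := Y184.NT.trdeg_below (K := L) hL
  obtain ⟨m, hm, θ, hθ, D, hD, hind⟩ := hpos
  have hset : ∀ z ∈ IntermediateField.adjoin K (E : Set L),
      z ∈ Submodule.span K {z : L | ∃ t : E, (t = 1 ∨ t ∈ T) ∧ (t : L) = z} := by
    intro z hz
    refine Submodule.span_mono ?_ (hT z hz)
    rintro w (rfl | ⟨t, ht, rfl⟩)
    · exact ⟨1, Or.inl rfl, rfl⟩
    · exact ⟨t, Or.inr ht, rfl⟩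
  have hsec : ∀ j, U192.PX.SecT d m T {1} (θ j) := fun j => ⟨(hθ j).1, fun P hP G hG => by
    rcases (hθ j).2 P hP G hG with h | h
    · exact Or.inl h
    · refine Or.inr ⟨1, Finset.mem_singleton_self _, one_ne_zero, ?_⟩
      rw [P.ord_one, add_zero]
      exact h⟩
  have hge : U192.PE.BdGe (K := K) U F (d + e) (fun _ => 0) (fun _ => 0) := by
    intro P Q v e1 e2 _ hv _ _
    have h1 : (1 : ℝ) ≤ e2 := by exact_mod_cast hv.1
    linarith
  have hmain : KappaGe ℂ K (d + e) (a + b) :=
    (U192.PX.kod_iff hK).2 (U192.PX.kod_prod (K := K) (E := E) (U := U) (F := F) hUF hEU hE hU hF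
      hL hinj hset (fun _ => le_rfl) (fun _ _ => zero_le_one) hge hm hsec hD hind
      ((U192.PX.kod_iff hF).1 hY))
  refine ⟨hmain, fun hab Z p f q hZ hf hq hqf => ?_⟩
  have hpf : p + f = d + e := by
    have h3 := trdeg_add_eq ℂ Z (A := K)
    rw [hZ, hf, hK] at h3
    exact_mod_cast h3
  exact R882.UA.kod_mono hmain (by omega)

end Pool.Agent.Results.MP_5c318e_ag.IsotrivialCorrespondences
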