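import Pool.Agent.U192.TF.Genus
import Pool.Agent.R882.UA

/-!
# Viehweg's inequality for varieties dominated by the product of a variety and a curve

Let `X₁` be a projective variety over `ℂ` of dimension `d`, `C` a curve of any genus, and let
`X₁ × C ⇢ W` be a dominant rational map of finite degree. It need not be related to the product
structure, and it need not be the quotient by a group. Let `X₁ ⇢ X` be a dominant rational map of
finite degree (for instance the identity), let `V` be the image of `X₁ × C` in `W × X` and `V₁` the one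
in `W × X₁`. Let `T` be a finite set of rational functions on `X` such that `1` and the functions in `T`
generate the function field `ℂ(V)` as a vector space over `ℂ(W)` (they separate the points of `X` below a
general point of `W`), and let `H` be the divisor of the poles of the functions in `T`.

**Theorem.** Suppose that for some `m ≥ 1` there are `a + 1` sections of `m (K_X - 2 H)` (on all models,
see `IsSection`) with algebraically independent ratios: `κ(X, K_X - 2 H) ≥ a`. Let `W → Y` be any
fibration (of smooth models; all dominant rational maps `W ⇢ Y` are allowed) with generic fibre `F`, and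
`κ(Y) ≥ 0`.

1. If `K_F` is pseudo-effective then `κ(W) ≥ a`, and `κ(W) ≥ a + 1` if the fibres of `V₁ → X₁` are not
   elliptic curves.
2. Let `K_X - 2 H` be big, `a = d = dim X`. If `κ(F) ≥ q ≥ 0` then `κ(W) ≥ q + dim Y`, unless `F` is of
   general type (`q = dim F`) and the fibres of `V₁ → X₁` are elliptic curves.

As `κ(Y)` and the variation `Var(W → Y)` are at most `dim Y`, part 2 gives Viehweg's inequality
`κ(W) ≥ κ(F) + max (κ(Y), Var)` for all fibrations `W → Y` with `κ(Y) ≥ 0` of all these varieties `W`,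
except if `F` is of general type (and the fibres of `V₁ → X₁` are elliptic curves); for `F` of general
type it is the theorem of Kollár (1987), which is not formalised. If `κ(F) = -∞` there is nothing to
prove.

The starting file `CurveFibrationImages` (same problem) treats the images of nondegenerate
hypersurfaces in tori which are fibred by curves over `(ℙ¹)ⁿ`, with canonical forms. Here the base `X` is
arbitrary, and there are pluricanonical forms.

Proof. If `W` is uniruled then `κ(Y) = -∞` or `K_F` is not pseudo-effective (library file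
`R882.UA`). If the fibres of `V₁ → X₁` are rational then `W` is uniruled. If they are neither
rational nor elliptic then `κ(W) ≥ a + 1`, by the norms from `V₁` to `W` of the products of sections of
`m (K_X - 2 H)` with traces of differentials on `C` (see `MP_1e3e9c_ag.ProductsWithCurves`, by the same
agent), and `κ(W) ≥ a` in any case if `W` is not uniruled. In part 2 we have
`dim Y + dim F = d + 1`. The library statements on the trace relations are due to helper145, helper603,
helper279, helper459, helper273, helper160 and others, fibrations of uniruled varieties to helper882.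

`K` is the function field of `X₁ × C`, the compositum of the function fields `E₁` of `X₁` and `C`; `E` is
the one of `X`, `L` the one of `W`, and the subfield `Y` of `L` the one of `Y`.
-/

set_option autoImplicit false
set_option linter.overlappingInstances false
set_option maxHeartbeats 4000000
set_option synthInstance.maxHeartbeats 400000

open FF Module IntermediateField Pool.Agent Pool.Agent.W602.GT

namespace Pool.Agent.Results.MP_5c318e_ag.ProductsWithCurves

/-- The order of the poles along `v` of the functions in the finite set `T`: the multiplicity at `v`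
of `H`, the smallest effective divisor with `H + (t) ≥ 0` for all `t ∈ T`, `t ≠ 0`. -/
noncomputable def poleOrder {E : Type} [Field E] [Algebra ℂ E] (T : Finset E) (v : Place ℂ E) : ℕ :=
  T.sup fun z => (-v.ord z).toNat

/-- `θ` is a section of `m (K_X - 2 H)`, where `E` is the function field of `X`, of dimension `d`, and
`H` is the divisor of the poles of the functions in `T`: an `m`-canonical form of order at least
`2 m H_v` along all prime divisors `v` over `X`. -/
def IsSection {E : Type} [Field E] [Algebra ℂ E] (d m : ℕ) (T : Finset E)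
    (θ : (Fin d → Derivation ℂ E E) → E) : Prop :=
  IsPluri m θ ∧ ∀ v : Place ℂ E, Divisorial d v → ∀ G : Fin d → Derivation ℂ E E,
    (∀ i, DerReg v (G i)) → θ G = 0 ∨ 2 * (m : ℤ) * poleOrder T v ≤ v.ord (θ G)

/-- `κ(X, K_X - 2 H) ≥ a`: for some `m ≥ 1` there are `a + 1` sections of `m (K_X - 2 H)` with
algebraically independent ratios. -/
def IsPositive {E : Type} [Field E] [Algebra ℂ E] (d a : ℕ) (T : Finset E) : Prop :=
  ∃ m : ℕ, 1 ≤ m ∧ ∃ θ : Fin (a + 1) → (Fin d → Derivation ℂ E E) → E,
    (∀ j, IsSection d m T (θ j)) ∧ ∃ G : Fin d → Derivation ℂ E E, θ 0 G ≠ 0 ∧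
      AlgebraicIndependent ℂ fun j : Fin a => θ j.succ G / θ 0 G

/-- `1` and the functions in `T` generate the field `L(E)` as a vector space over `L`. Here `K` is the
function field of `X₁ × C`, `E` the one of `X`, `L` the one of `W`, and so `L(E)` the one of the image
`V` of `X₁ × C` in `W × X`. -/
def Separates {K : Type} [Field K] [Algebra ℂ K] (L : Type) [Field L] [Algebra L K]
    (E : IntermediateField ℂ K) (T : Finset E) : Prop :=
  ∀ z ∈ IntermediateField.adjoin L (E : Set K),
    z ∈ Submodule.span L (insert 1 ((fun t : E => (t : K)) '' (T : Set E)))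

/-- `κ ≥ h` for the smooth projective varieties of dimension `n` over the field `k` with the function
field `K`: for some `m ≥ 1` there are `h + 1` regular `m`-canonical forms (regular at all prime divisors)
with algebraically independent ratios. -/
def KappaGe (k K : Type) [Field k] [Field K] [Algebra k K] (n h : ℕ) : Prop :=
  KodGe k K n (fun _ => False) h

/-- The canonical divisor of the smooth projective varieties of dimension `n` over the field `k` with
the function field `K` is pseudo-effective. -/
def IsPseudoEffective (k K : Type) [Field k] [Field K] [Algebra k K] (n : ℕ) : Prop :=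
  Psef k K n (fun _ => False)

/-- The curve with the function field `F` over the algebraically closed field `Λ` is rational:
`F = Λ(t)`. -/
def IsRational (Λ F : Type) [Field Λ] [Field F] [Algebra Λ F] : Prop := ∃ t : F, Λ⟮t⟯ = ⊤

/-- The curve with the function field `F` over the algebraically closed field `Λ` is elliptic: it has a
vector field `D` without zeros and poles, i.e. `D t` is a unit for the uniformizers `t` at all points
`w`. -/
def IsElliptic (Λ F : Type) [Field Λ] [Field F] [Algebra Λ F] : Prop :=
  ∃ D : Derivation Λ F F, ∀ (w : Place Λ F) (t : F), w.ord t = 1 → D t ≠ 0 ∧ w.ord (D t) = 0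

/-- The geometric generic fibre of `V₁ → X₁` is an elliptic curve. Here `K` is the function field of
`X₁ × C`, `E₁` the one of `X₁` and `L` the one of `W`, so that `L(E₁)` is the one of the image `V₁` of
`X₁ × C` in `W × X₁`. There are an algebraic closure `Λ` of `E₁` and an elliptic curve over `Λ` with
function field `F`, generated by the image of an embedding `ψ` of `L(E₁)` over `E₁` (so `F` is the
function field of the geometric generic fibre). -/
def HasEllipticFibres {K : Type} [Field K] [Algebra ℂ K] (L : Type) [Field L] [Algebra L K]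
    (E₁ : IntermediateField ℂ K) : Prop :=
  ∃ (Λ F : Type) (_ : Field Λ) (_ : Field F) (_ : Algebra E₁ Λ) (_ : Algebra Λ F)
    (_ : IsAlgClosed Λ) (_ : Algebra.IsAlgebraic E₁ Λ) (_ : IsFF Λ F)
    (ψ : IntermediateField.adjoin L (E₁ : Set K) →+* F),
    (∀ e : E₁, ∀ z : IntermediateField.adjoin L (E₁ : Set K), (z : K) = e →
      ψ z = algebraMap Λ F (algebraMap E₁ Λ e)) ∧
    IntermediateField.adjoin Λ (Set.range ψ) = ⊤ ∧ IsElliptic Λ F

theorem conv {E : Type} [Field E] [Algebra ℂ E] {d m : ℕ} {T : Finset E}
    {θ : (Fin d → Derivation ℂ E E) → E} (h : IsSection d m T θ) :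
    ∀ v : Place ℂ E, Divisorial d v → ∀ G : Fin d → Derivation ℂ E E,
      (∀ i, DerReg v (G i)) → θ G = 0 ∨ ∀ t : E, (t = 1 ∨ t ∈ T) → t ≠ 0 →
        (0 : ℤ) ≤ v.ord (θ G) + 2 * m * v.ord t := by
  intro v hv G hG
  rcases h.2 v hv G hG with h1 | h1
  · exact Or.inl h1
  refine Or.inr fun t ht _ => ?_
  have h2 : -v.ord t ≤ poleOrder T v := by
    rcases ht with rfl | ht
    · rw [v.ord_one, neg_zero]
      exact Int.natCast_nonneg _
    · have h3 : (-v.ord t).toNat ≤ poleOrder T v :=
        Finset.le_sup (f := fun z => (-v.ord z).toNat) ht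
      have h4 := Int.self_le_toNat (-v.ord t)
      exact h4.trans (by exact_mod_cast h3)
  have h3 := mul_le_mul_of_nonneg_left h2 (by positivity : (0 : ℤ) ≤ 2 * m)
  linarith

theorem glo_iff {Λ F : Type} [Field Λ] [Field F] [Algebra Λ F] [CharZero Λ] [IsAlgClosed Λ]
    [IsFF Λ F] : N145.SX.GLO Λ F ↔ IsRational Λ F ∨ IsElliptic Λ F := by
  unfold IsElliptic
  simp only [N145.SX.flat_iff]
  exact ⟨N145.SX.flat_of_glo, N145.SX.glo_of_flat⟩

theorem uniruled_of_rational {L : Type} [Field L] [Algebra ℂ L] [Algebra.EssFiniteType ℂ L] {d : ℕ}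
    (hL : Algebra.trdeg ℂ L = (d + 1 : ℕ)) {Λ F : Type} [Field Λ] [Field F] [Algebra ℂ Λ]
    [Algebra ℂ F] [Algebra Λ F] [IsScalarTower ℂ Λ F] [IsAlgClosed Λ] [IsFF Λ F]
    (hΛ : Algebra.trdeg ℂ Λ = d) (h : IsRational Λ F) (φ : L →ₐ[ℂ] F) :
    W619.PQ.IsUniruled ℂ L (d + 1) := by
  obtain ⟨s, hs⟩ := h
  have hst : Transcendental Λ s := by
    intro halg
    have h1 : Algebra.trdeg Λ F = 1 := IsFF.trdeg
    have h2 : Algebra.trdeg Λ F = 0 := by
      rw [trdeg_eq_zero_iff]
      have h3 : Algebra.IsAlgebraic Λ Λ⟮s⟯ :=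
        IntermediateField.isAlgebraic_adjoin_simple halg.isIntegral
      rw [hs] at h3
      exact (IntermediateField.topEquiv (F := Λ) (E := F)).isAlgebraic_iff.1 h3
    rw [h2] at h1
    exact zero_ne_one h1
  obtain ⟨M, i1, i2, ψ, h1, h2, -⟩ := N145.PL.a1 d L Λ F hL hΛ φ s hst
    (fun e => by rw [hs]; exact IntermediateField.mem_top) (fun _ => False)
    (fun _ _ _ _ _ h => h.elim)
  exact ⟨M, i1, i2, h1, h2, ⟨ψ⟩⟩

section

variable {K : Type} [Field K] [Algebra ℂ K] {L : Type} [Field L] [Algebra ℂ L] [Algebra L K]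
  [IsScalarTower ℂ L K] {E₁ : IntermediateField ℂ K}

theorem fib_of_geo {d : ℕ} (hE₁ : Algebra.trdeg ℂ E₁ = d) (hL : Algebra.trdeg ℂ L = (d + 1 : ℕ))
    [Algebra.EssFiniteType ℂ L] (hu : ¬ W619.PQ.IsUniruled ℂ L (d + 1))
    (h : N145.SX.GeoFib (U192.TF.NN L E₁) (U192.TF.EN L E₁)) : HasEllipticFibres L E₁ := by
  obtain ⟨Λ, F, iΛ, iF, iNΛ, iNF, iΛF, iT, iC, ialg, iFF, ψ, hgen, hglo⟩ := h
  let ι : E₁ →+* U192.TF.EN L E₁ :=
    { toFun := fun e => ⟨⟨(e : K), IntermediateField.subset_adjoin L _ e.2⟩, e.2⟩
      map_one' := rfl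
      map_mul' := fun _ _ => rfl
      map_zero' := rfl
      map_add' := fun _ _ => rfl }
  let aΛ : Algebra E₁ Λ := ((algebraMap (U192.TF.EN L E₁) Λ).comp ι).toAlgebra
  have hch : CharZero (U192.TF.EN L E₁) :=
    charZero_of_injective_algebraMap (algebraMap ℂ (U192.TF.EN L E₁)).injective
  have hch' : CharZero Λ :=
    charZero_of_injective_algebraMap (algebraMap (U192.TF.EN L E₁) Λ).injective
  have halg : Algebra.IsAlgebraic E₁ Λ := ⟨fun z => by
    obtain ⟨p, hp0, hp⟩ := ialg.isAlgebraic z
    let κ : U192.TF.EN L E₁ →+* E₁ :=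
      { toFun := fun w => ⟨((w : U192.TF.NN L E₁) : K), w.2⟩
        map_one' := rfl
        map_mul' := fun _ _ => rfl
        map_zero' := rfl
        map_add' := fun _ _ => rfl }
    refine ⟨p.map κ, (Polynomial.map_ne_zero_iff κ.injective).2 hp0, ?_⟩
    rw [Polynomial.aeval_def, Polynomial.eval₂_map]
    exact hp⟩
  have hψ : ∀ e : E₁, ∀ z : IntermediateField.adjoin L (E₁ : Set K), (z : K) = e →
      ψ z = algebraMap Λ F (algebraMap E₁ Λ e) := by
    intro e z hz
    have h1 : z = algebraMap (U192.TF.EN L E₁) (U192.TF.NN L E₁) (ι e) := Subtype.ext hz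
    have h2 := ψ.commutes (ι e)
    rw [← h1, IsScalarTower.algebraMap_apply (U192.TF.EN L E₁) Λ F] at h2
    exact h2
  refine ⟨Λ, F, iΛ, iF, aΛ, iΛF, iC, halg, iFF, ψ.toRingHom, hψ, hgen,
    (glo_iff.1 hglo).resolve_left fun hr => hu ?_⟩
  let a1 : Algebra ℂ Λ := ((algebraMap E₁ Λ).comp (algebraMap ℂ E₁)).toAlgebra
  let a2 : Algebra ℂ F := ((algebraMap Λ F).comp (algebraMap ℂ Λ)).toAlgebra
  have t1 : IsScalarTower ℂ Λ F := IsScalarTower.of_algebraMap_eq fun c => rfl
  have t2 : IsScalarTower ℂ E₁ Λ := IsScalarTower.of_algebraMap_eq fun c => rfl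
  have hΛ : Algebra.trdeg ℂ Λ = d := by
    have h1 := trdeg_add_eq ℂ E₁ (A := Λ)
    have h2 : Algebra.trdeg E₁ Λ = 0 := by
      rw [trdeg_eq_zero_iff]
      exact halg
    rw [h2, add_zero, hE₁] at h1
    exact h1.symm
  refine uniruled_of_rational hL hΛ hr
    ⟨ψ.toRingHom.comp (algebraMap L (IntermediateField.adjoin L (E₁ : Set K))), fun c => ?_⟩
  refine hψ (algebraMap ℂ E₁ c) _ ?_
  change algebraMap L K (algebraMap ℂ L c) = algebraMap ℂ K c
  exact (IsScalarTower.algebraMap_apply ℂ L K c).symm

end

/-- **Viehweg's inequality.** Let `K` be the function field of the product of a variety with function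
field `E₁`, of dimension `d`, and of a curve with function field `C`; let `E ⊆ E₁` be a subfield of the
same transcendence degree, the function field of `X`, and `L ⊆ K` the function field of a variety `W`,
the extension being finite. Let `T ⊆ E` be a finite set of functions which separates the points of `X`
below a general point of `W`, and let `κ(X, K_X - 2 H) ≥ a`. Let `W ⇢ Y` be a dominant rational map,
given by a subfield of `L`, with `κ(Y) ≥ 0`, and let `F` be its generic fibre, the variety over `ℂ(Y)`
with the function field `L`, `e = dim Y` and `f = dim F`.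
If `K_F` is pseudo-effective then `κ(W) ≥ a`, and `κ(W) ≥ a + 1` unless the geometric generic fibre of
`V₁ → X₁` is an elliptic curve. If `a = d` and `κ(F) ≥ q ≥ 0` then `κ(W) ≥ q + dim Y`, unless
`q = dim F` and the geometric generic fibre of `V₁ → X₁` is an elliptic curve. -/
theorem result (K : Type) [Field K] [Algebra ℂ K] [Algebra.EssFiniteType ℂ K] (d : ℕ)
    (E E₁ C : IntermediateField ℂ K) (hE : Algebra.trdeg ℂ E = d) (hE₁ : Algebra.trdeg ℂ E₁ = d)
    (hC : Algebra.trdeg ℂ C = 1) (hK : Algebra.trdeg ℂ K = (d + 1 : ℕ)) (hEE : E ≤ E₁)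
    (hsup : E₁ ⊔ C = ⊤) (L : Type) [Field L] [Algebra ℂ L] [Algebra L K] [IsScalarTower ℂ L K]
    [FiniteDimensional L K] (T : Finset E) (hT : Separates L E T) (a : ℕ)
    (hpos : IsPositive d a T) (Y : IntermediateField ℂ L) {e f : ℕ} (hY : Algebra.trdeg ℂ Y = e)
    (hF : Algebra.trdeg Y L = f) (hκ : KappaGe ℂ Y e 0) :
    (IsPseudoEffective Y L f → KappaGe ℂ L (d + 1) a ∧
      (KappaGe ℂ L (d + 1) (a + 1) ∨ HasEllipticFibres L E₁)) ∧
    (a = d → ∀ q : ℕ, KappaGe Y L f q →
      KappaGe ℂ L (d + 1) (q + e) ∨ q = f ∧ HasEllipticFibres L E₁) := by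
  classical
  have hL : Algebra.trdeg ℂ L = (d + 1 : ℕ) := Y184.NT.trdeg_below (K := K) hK
  have hessL : Algebra.EssFiniteType ℂ L := TH466.QG.ess_below (K := K)
  have hessY : Algebra.EssFiniteType ℂ Y := N999.SX.ess_any Y
  have hFF : IsFF ℂ C := ⟨N999.SX.ess_any C, hC⟩
  have hset : ∀ z ∈ IntermediateField.adjoin L (E : Set K),
      z ∈ Submodule.span L {z : K | ∃ t : E, (t = 1 ∨ t ∈ T) ∧ (t : K) = z} := by
    intro z hz
    refine Submodule.span_mono ?_ (hT z hz)
    rintro w (rfl | ⟨t, ht, rfl⟩)
    · exact ⟨1, Or.inl rfl, rfl⟩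
    · exact ⟨t, Or.inr ht, rfl⟩
  have h := U192.TF.main (C := C) (L := L) hEE hsup hE hE₁ hK hset (BX := fun _ => False)
    (B := ∅) Set.finite_empty (BL := fun _ => False) (fun P Q e hQ => by
      constructor
      · exact fun h => h.elim
      · rintro (⟨_, _, h, -⟩ | ⟨_, h, -⟩)
        · exact h
        · exact h)
  have h2 := U192.TF.genus (C := C) (L := L) hEE hsup hE hE₁ hK hset
  have hunir : W619.PL.IsA1Uniruled ℂ L (d + 1) (fun _ => False) →
      W619.PQ.IsUniruled ℂ L (d + 1) := by
    rintro ⟨M, i1, i2, φ, h1, h2, -⟩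
    exact ⟨M, i1, i2, h1, h2, ⟨φ⟩⟩
  have hef : e + f = d + 1 := by
    have h3 := trdeg_add_eq ℂ Y (A := L)
    rw [hY, hF, hL] at h3
    exact_mod_cast h3
  obtain ⟨m, hm, θ, hθ, G, hG, hind⟩ := hpos
  have hka : ¬ W619.PQ.IsUniruled ℂ L (d + 1) → KappaGe ℂ L (d + 1) a := by
    intro hu
    obtain ⟨h1, -⟩ := h.resolve_left fun h => hu (hunir h)
    exact h1 m a hm θ (fun j => (hθ j).1) (fun j v hv G hG => by
      rcases conv (hθ j) v hv G hG with h3 | h3
      · exact Or.inl h3
      · refine Or.inr fun t ht ht0 => ?_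
        rw [if_neg id]
        exact h3 t ht ht0) G hG hind
  have hk2 : ¬ W619.PQ.IsUniruled ℂ L (d + 1) →
      KappaGe ℂ L (d + 1) (a + 1) ∨ HasEllipticFibres L E₁ := by
    intro hu
    rcases h2 with ⟨-, -, h3⟩ | h3
    · exact Or.inr (fib_of_geo hE₁ hL hu h3)
    · exact Or.inl (h3 m a hm θ (fun j => (hθ j).1) (fun j => conv (hθ j)) G hG hind)
  have hkey : IsPseudoEffective Y L f → ¬ W619.PQ.IsUniruled ℂ L (d + 1) :=
    fun h4 h5 => R882.UA.fib_not hL h5 Y hY hF hκ h4
  refine ⟨fun h4 => ⟨hka (hkey h4), hk2 (hkey h4)⟩, ?_⟩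
  rintro rfl q hq
  have h4 : ¬ W619.PQ.IsUniruled ℂ L (a + 1) :=
    hkey (psef_of_kodGe (R882.UA.kod_mono hq (Nat.zero_le _)))
  have hq' : q ≤ f := R882.UA.kod_le_dim hF hq
  rcases hk2 h4 with h5 | h5
  · exact Or.inl (R882.UA.kod_mono h5 (by omega))
  · by_cases hqf : q = f
    · exact Or.inr ⟨hqf, h5⟩
    · exact Or.inl (R882.UA.kod_mono (hka h4) (by omega))

end Pool.Agent.Results.MP_5c318e_ag.ProductsWithCurves
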